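import Pool.Agent.MHP.Stmts

set_option autoImplicit false

namespace Pool.Agent.MHP.H72

open Pool.Agent.HMT Pool.Agent.MHP

theorem edge_fin {V : Type} [Finite V] (C : SimpleGraph V) (Z : Finset (Sym2 V))
    (hZ : Z ⊆ (Set.toFinite C.edgeSet).toFinset) :
    (Set.toFinite (SimpleGraph.fromEdgeSet (Z : Set (Sym2 V))).edgeSet).toFinset = Z := by
  ext e
  rw [Set.Finite.mem_toFinset, SimpleGraph.edgeSet_fromEdgeSet]
  constructor
  · intro h
    exact_mod_cast h.1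
  · intro h
    refine ⟨by exact_mod_cast h, ?_⟩
    have h1 := hZ h
    rw [Set.Finite.mem_toFinset] at h1
    exact SimpleGraph.not_isDiag_of_mem_edgeSet C h1

theorem sgn_sum {α : Type} [DecidableEq α] (E Z' : Finset α) (h : Z' ⊆ E) :
    ∑ Z ∈ E.powerset with Z' ⊆ Z, (-1 : ℤ) ^ Z.card = if Z' = E then (-1 : ℤ) ^ E.card else 0 := by
  have h1 : ∑ Z ∈ E.powerset with Z' ⊆ Z, (-1 : ℤ) ^ Z.card =
      ∑ Y ∈ (E \ Z').powerset, (-1 : ℤ) ^ (Z'.card + Y.card) := by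
    refine Finset.sum_nbij' (fun Z => Z \ Z') (fun Y => Z' ∪ Y) ?_ ?_ ?_ ?_ ?_
    · intro Z hZ
      rw [Finset.mem_filter, Finset.mem_powerset] at hZ
      rw [Finset.mem_powerset]
      exact Finset.sdiff_subset_sdiff hZ.1 (le_refl _)
    · intro Y hY
      rw [Finset.mem_powerset] at hY
      rw [Finset.mem_filter, Finset.mem_powerset]
      exact ⟨Finset.union_subset h (hY.trans Finset.sdiff_subset), Finset.subset_union_left⟩
    · intro Z hZ
      rw [Finset.mem_filter, Finset.mem_powerset] at hZ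
      exact Finset.union_sdiff_of_subset hZ.2
    · intro Y hY
      rw [Finset.mem_powerset] at hY
      have hd : Disjoint Y Z' := Finset.disjoint_of_subset_left hY Finset.sdiff_disjoint
      show (Z' ∪ Y) \ Z' = Y
      rw [Finset.union_sdiff_left]
      exact hd.sdiff_eq_left
    · intro Z hZ
      rw [Finset.mem_filter, Finset.mem_powerset] at hZ
      rw [Finset.card_sdiff_of_subset hZ.2, Nat.add_sub_cancel' (Finset.card_le_card hZ.2)]
  rw [h1]
  simp_rw [pow_add]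
  rw [← Finset.mul_sum, Finset.sum_powerset_neg_one_pow_card]
  by_cases hE : Z' = E
  · subst hE
    simp
  · have h2 : E \ Z' ≠ ∅ := by
      intro h3
      exact hE (Finset.Subset.antisymm h (Finset.sdiff_eq_empty_iff_subset.1 h3))
    rw [if_neg h2, if_neg hE, mul_zero]

/-- **MOB** -/
theorem mob : MobStmt := by
  classical
  intro V _ M _ C F
  unfold tog
  obtain ⟨E, hE⟩ : ∃ E, E = (Set.toFinite C.edgeSet).toFinset := ⟨_, rfl⟩
  have h0 : ∀ Z ∈ E.powerset,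
      ((-1 : ℤ) ^ Z.card) • (∑ Z' ∈ (Set.toFinite (SimpleGraph.fromEdgeSet
        (Z : Set (Sym2 V))).edgeSet).toFinset.powerset,
        ((-1 : ℤ) ^ Z'.card) • F (SimpleGraph.fromEdgeSet (Z' : Set (Sym2 V)))) =
      ∑ Z' ∈ Z.powerset, ((-1 : ℤ) ^ Z.card * (-1 : ℤ) ^ Z'.card) •
        F (SimpleGraph.fromEdgeSet (Z' : Set (Sym2 V))) := by
    intro Z hZ
    rw [Finset.mem_powerset] at hZ
    rw [edge_fin C Z (hE ▸ hZ), Finset.smul_sum]
    exact Finset.sum_congr rfl fun Z' _ => by rw [mul_smul]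
  rw [← hE, Finset.sum_congr rfl h0]
  have h1 : ∑ Z ∈ E.powerset, ∑ Z' ∈ Z.powerset, ((-1 : ℤ) ^ Z.card * (-1 : ℤ) ^ Z'.card) •
        F (SimpleGraph.fromEdgeSet (Z' : Set (Sym2 V))) =
      ∑ Z' ∈ E.powerset, ∑ Z ∈ E.powerset with Z' ⊆ Z,
        ((-1 : ℤ) ^ Z.card * (-1 : ℤ) ^ Z'.card) •
        F (SimpleGraph.fromEdgeSet (Z' : Set (Sym2 V))) := by
    refine Finset.sum_comm' ?_
    intro Z Z'
    simp only [Finset.mem_powerset, Finset.mem_filter]
    exact ⟨fun h => ⟨⟨h.1, h.2⟩, h.2.trans h.1⟩, fun h => ⟨h.1.1, h.1.2⟩⟩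
  rw [h1]
  have h2 : ∀ Z' ∈ E.powerset, ∑ Z ∈ E.powerset with Z' ⊆ Z,
        ((-1 : ℤ) ^ Z.card * (-1 : ℤ) ^ Z'.card) •
        F (SimpleGraph.fromEdgeSet (Z' : Set (Sym2 V))) =
      if Z' = E then F (SimpleGraph.fromEdgeSet (E : Set (Sym2 V))) else 0 := by
    intro Z' hZ'
    rw [Finset.mem_powerset] at hZ'
    rw [← Finset.sum_smul, ← Finset.sum_mul, sgn_sum E Z' hZ']
    by_cases h : Z' = E
    · subst h
      rw [if_pos rfl, if_pos rfl, ← mul_pow]
      norm_num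
    · rw [if_neg h, if_neg h, zero_mul, zero_smul]
  rw [Finset.sum_congr rfl h2, Finset.sum_ite_eq' , if_pos (Finset.mem_powerset_self E), hE]
  congr 1
  rw [Set.Finite.coe_toFinset, SimpleGraph.fromEdgeSet_edgeSet]

end Pool.Agent.MHP.H72
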